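import Mathlib
import Pool.Agent.GLE.StmtsA

/-!
Row HAD of the squad GLE: Hadamard inequality for a mixed Gram matrix.
-/

namespace Pool.Agent.GLE.H52

open Module

theorem had_basis {V : Type*} [NormedAddCommGroup V] [InnerProductSpace ℝ V] {n : ℕ}
    (e : OrthonormalBasis (Fin n) ℝ V) (v : Fin n → V) :
    |(Matrix.of fun l j : Fin n => (inner ℝ (e l) (v j) : ℝ)).det| ≤ ∏ i, ‖v i‖ := by
  haveI : Fact (finrank ℝ V = n) :=
    ⟨by rw [finrank_eq_card_basis e.toBasis, Fintype.card_fin]⟩
  have h := e.toBasis.orientation.abs_volumeForm_apply_le v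
  rw [e.toBasis.orientation.volumeForm_robust' e v, Basis.det_apply] at h
  have h2 : e.toBasis.toMatrix v = Matrix.of fun l j : Fin n => (inner ℝ (e l) (v j) : ℝ) := by
    ext l j
    rw [Basis.toMatrix_apply, OrthonormalBasis.coe_toBasis_repr_apply,
      OrthonormalBasis.repr_apply_apply]
    rfl
  rwa [h2] at h

theorem had : HadStmt := by
  intro H _ _ n x y
  by_cases hy : LinearIndependent ℝ y
  · haveI : FiniteDimensional ℝ (Submodule.span ℝ (Set.range y)) :=
      FiniteDimensional.span_of_finite ℝ (Set.finite_range y)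
    have hfin : finrank ℝ (Submodule.span ℝ (Set.range y)) = n := by
      rw [finrank_span_eq_card hy, Fintype.card_fin]
    let e : OrthonormalBasis (Fin n) ℝ (Submodule.span ℝ (Set.range y)) :=
      (stdOrthonormalBasis ℝ (Submodule.span ℝ (Set.range y))).reindex (finCongr hfin)
    let y' : Fin n → Submodule.span ℝ (Set.range y) := fun i =>
      ⟨y i, Submodule.subset_span ⟨i, rfl⟩⟩
    let x' : Fin n → Submodule.span ℝ (Set.range y) := fun j =>
      (Submodule.span ℝ (Set.range y)).orthogonalProjection (x j)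
    have h1 : ∀ j i, (inner ℝ (x j) (y i) : ℝ) = inner ℝ (x' j) (y' i) := by
      intro j i
      have h := Submodule.inner_orthogonalProjection_eq_of_mem_right (y' i) (x j)
      exact h.symm
    have hM : (Matrix.of fun j i : Fin n => (inner ℝ (x j) (y i) : ℝ)) =
        (Matrix.of fun l j : Fin n => (inner ℝ (e l) (x' j) : ℝ)).transpose *
          (Matrix.of fun l i : Fin n => (inner ℝ (e l) (y' i) : ℝ)) := by
      ext j i
      rw [Matrix.mul_apply]
      show (inner ℝ (x j) (y i) : ℝ) = ∑ l, inner ℝ (e l) (x' j) * inner ℝ (e l) (y' i)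
      rw [h1, ← e.sum_inner_mul_inner]
      refine Finset.sum_congr rfl fun l _ => ?_
      rw [real_inner_comm]
    rw [hM, Matrix.det_mul, Matrix.det_transpose, abs_mul]
    refine mul_le_mul ?_ ?_ (abs_nonneg _) (Finset.prod_nonneg fun _ _ => norm_nonneg _)
    · refine (had_basis e x').trans (Finset.prod_le_prod (fun _ _ => norm_nonneg _) fun j _ => ?_)
      exact Submodule.norm_orthogonalProjection_apply_le _ _
    · exact had_basis e y'
  · obtain ⟨g, hg, i, hi⟩ := Fintype.not_linearIndependent_iff.1 hy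
    have h0 : (Matrix.of fun j i : Fin n => (inner ℝ (x j) (y i) : ℝ)).det = 0 := by
      rw [← Matrix.exists_mulVec_eq_zero_iff]
      refine ⟨g, fun h => hi (by rw [h]; rfl), ?_⟩
      ext j
      show ∑ i, (inner ℝ (x j) (y i) : ℝ) * g i = 0
      have h2 : (inner ℝ (x j) (∑ i, g i • y i) : ℝ) = 0 := by rw [hg, inner_zero_right]
      rw [inner_sum] at h2
      rw [← h2]
      refine Finset.sum_congr rfl fun i _ => ?_
      rw [inner_smul_right, mul_comm]
    rw [h0, abs_zero]
    exact mul_nonneg (Finset.prod_nonneg fun _ _ => norm_nonneg _)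
      (Finset.prod_nonneg fun _ _ => norm_nonneg _)

end Pool.Agent.GLE.H52
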