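import Mathlib
import Pool.Agent.GLE.StmtsA

/-!
Row NBH of the squad GLE: points near the Mandelbrot set.
-/

namespace Pool.Agent.GLE.H52

theorem nbh : NbhStmt := by
  intro m a h ha hh
  have key : ∀ j, j ≤ m → ‖av j (a + h) - av j a‖ ≤ ‖h‖ * (5 ^ j - 1) / 4 := by
    intro j
    induction j with
    | zero =>
      intro _
      simp [av]
    | succ j ih =>
      intro hj
      have h1 := ih (by omega)
      have h5 : ‖h‖ * 5 ^ j ≤ 1 := by
        have h2 : (5 : ℝ) ^ j ≤ 5 ^ m := pow_le_pow_right₀ (by norm_num) (by omega)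
        have h3 : ‖h‖ * 5 ^ j ≤ (1 / 5 : ℝ) ^ m * 5 ^ m :=
          mul_le_mul hh h2 (by positivity) (by positivity)
        rwa [← mul_pow, show (1 / 5 : ℝ) * 5 = 1 by norm_num, one_pow] at h3
      have h6 : ‖av j (a + h) - av j a‖ ≤ 1 := by
        have := norm_nonneg h
        linarith
      have h7 : av (j + 1) (a + h) - av (j + 1) a =
          (av j (a + h) - av j a) * ((av j (a + h) - av j a) + 2 * av j a) + h := by
        simp only [av]
        ring
      have h8 : ‖(av j (a + h) - av j a) + 2 * av j a‖ ≤ 5 := by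
        refine (norm_add_le _ _).trans ?_
        rw [norm_mul]
        have h9 := ha j
        have h10 : ‖(2 : ℂ)‖ = 2 := by simp
        rw [h10]
        linarith
      rw [h7]
      refine (norm_add_le _ _).trans ?_
      rw [norm_mul]
      have h11 := mul_le_mul h1 h8 (norm_nonneg _) ((norm_nonneg _).trans h1)
      rw [pow_succ]
      linarith
  have h1 := key m le_rfl
  have h5 : ‖h‖ * 5 ^ m ≤ 1 := by
    have h3 : ‖h‖ * 5 ^ m ≤ (1 / 5 : ℝ) ^ m * 5 ^ m :=
      mul_le_mul_of_nonneg_right hh (by positivity)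
    rwa [← mul_pow, show (1 / 5 : ℝ) * 5 = 1 by norm_num, one_pow] at h3
  have := norm_nonneg h
  linarith

end Pool.Agent.GLE.H52
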